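import Mathlib

set_option autoImplicit false
set_option maxRecDepth 100000
set_option linter.unusedSectionVars false

/-!
# A span 10 sequence from an orthogonal monomial with linear span 987 < 992

`K` is the field with `2 ^ 9` elements, `α` is a root of the primitive polynomial
`x^9 + x^8 + x^7 + x^3 + x^2 + x + 1`, `g x = Tr (α ^ 301 * x ^ 107)`, and the sequence is given by
`s (k + 10) = s k + g (s (k + 1), …, s (k + 9))` (all taps) with the initial state `(1, 0, …, 0)`.
It is a span 10 sequence and satisfies a linear recurrence of length `987 < 2 ^ 10 - 2 - 3 * 10`.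
-/

namespace Pool.Agent.Results.MP_593d43_lc.SpanCounterexample

/-- `g` is orthogonal: `∑ x, (-1) ^ (g (l x) + g x) = 0` for all `l ≠ 1` -/
def Orthogonal {K : Type} [Field K] [Fintype K] (g : K → ZMod 2) : Prop :=
  ∀ l : K, l ≠ 1 → ∑ x : K, (-1 : ℤ) ^ (g (l * x) + g x).val = 0

/-- `g` is affine over the field with two elements -/
def IsAffine {K : Type} [Field K] (g : K → ZMod 2) : Prop :=
  ∃ (φ : K →+ ZMod 2) (b : ZMod 2), ∀ x, g x = φ x + b

/-- `s` is a span `n` sequence: it has period `2 ^ n - 1` and every nonzero `n`-tuple is an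
`n`-window at exactly one position of a period -/
def SpanSeq (n : ℕ) (s : ℕ → ZMod 2) : Prop :=
  (∀ k, s (k + (2 ^ n - 1)) = s k) ∧
    ∀ w : Fin n → ZMod 2, w ≠ 0 → ∃! k : ℕ, k < 2 ^ n - 1 ∧ ∀ i : Fin n, s (k + i) = w i

/-- `s` is generated by a linear feedback shift register of length `L` -/
def LFSR (L : ℕ) (s : ℕ → ZMod 2) : Prop :=
  ∃ a : Fin L → ZMod 2, ∀ k, s (k + L) = ∑ i : Fin L, a i * s (k + i)

/-- the linear span of `s`: the length of the shortest linear feedback shift register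
generating `s` -/
noncomputable def linearSpan (s : ℕ → ZMod 2) : ℕ := sInf {L | LFSR L s}

/-- The setting of the problem: `K` has `2 ^ m` elements, `α` is a primitive element, `g` is
orthogonal and not affine, `0 < r 0 < ⋯ < r (m - 1) < n` are the taps, and `s` satisfies
`s (k + n) = c + s k + g (s (k + r 0), …, s (k + r (m - 1)))`, where a vector `(x 0, …, x (m - 1))`
is identified with `∑ x i α ^ i`. -/
structure Setting (m n : ℕ) (K : Type) [Field K] [Fintype K] (α : K) (g : K → ZMod 2) (c : ZMod 2)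
    (r : Fin m → ℕ) (s : ℕ → ZMod 2) : Prop where
  one_le : 1 ≤ m
  lt : m < n
  card : Fintype.card K = 2 ^ m
  primitive : orderOf α = 2 ^ m - 1
  orthogonal : Orthogonal g
  not_affine : ¬ IsAffine g
  r_mono : StrictMono r
  r_pos : ∀ i, 0 < r i
  r_lt : ∀ i, r i < n
  recurrence : ∀ k, s (k + n) =
    c + s k + g (∑ i : Fin m, ((s (k + r i)).val : K) * α ^ (i : ℕ))

open Finset

/-! ### tables -/

/-- check all numbers below `n` -/
def allB (n : ℕ) (f : ℕ → Bool) : Bool := (List.range n).all f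

theorem allB_spec {n : ℕ} {f : ℕ → Bool} (h : allB n f = true) (k : ℕ) (hk : k < n) :
    f k = true := by
  unfold allB at h
  rw [List.all_eq_true] at h
  exact h k (List.mem_range.2 hk)

/-- multiplication by `α` of bit vectors -/
def step (v : ℕ) : ℕ := if v.testBit 8 then (2 * v) ^^^ 911 else 2 * v

def PW : ℕ := 0x71e489224f8e6c9bc53174b15a6d86ef7c5f17fd0f43d0f7b32ba92a7270e43e118461fbcf13c4ff03c0f03c0f03f80e0380e0380e03f11c471ffce1384e13f51d475fece6b76a5ae761343b32cf3ccfd0340d0340d0378327aa2a8abed98d7ed0b42d0b7a32fa82a0a82a0af364357b62d8b7ea7aef6334bb12c73f084210843d79625897e278efe308c2308facebd9367571244e0e0c83c330f4cd3d735f58d635fc9f3bb8d2370307a2288a3ef98260982609f39cfb46d1b7e33fac2b0ac2be93a7671e47e01806018060180601f19c7b66dea9abad88d3ec0b02c0b02c0be13876f1c4711fc8f23cfee749dc4c0e8ca3cb32f44d1d7c411044110479f2048120481204f0e4c93c731f48d234fce7c9fc4310c431efca1284a12f565b51b7dc1705c1705f98e639ff9ffb86e1b86fdc771dff8fe3ffe1f87e1ff61d8761df69dbb18fd21485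214f4e5c97c6318c7f67dee9bba989d394f9465197eb3dacdaee4b9cdc290b8582d16cb75bede6f77a5ee66174250e5e188621f99e7be6fea1a86a1af765353b72df38ce33fd1f47dfcceeb4adc8c3e80a0280a0280a02f164b55b6dc6ff785e1785fd0741d0741de4c8eacabc9327471645e0983a78a2288be59ad76d373bf2ff30cc330cfbcefd8360d8360df29cbb58ed26c7765de699ba18bd314c53f73df78de37fc1f07c1f07f90e4390e7b72a4ae360347b22c8b3eb99267170240e1e088220f9e689a26f866f5c5715fd8f63dfe9fbb98dd294b9586d06cf745d177d333af2bf20c8320c833cb912471f00401004010040100401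

def LG : ℕ := 0xe5bdb86ed9708936eaefb51929e875bab24ab213f58251c6602bed172b8e131fd62055db839954cf020b8bd2e6c660605c66d54f4a848ed7b3cf906178fe45ff5191dce8b4df63d5c32b32c4db634840f49ad10b95ca8dfdc06391dce8171bed09a0aa3a5d7eb113cc94a9b7c8ee77ca1619596c695949c38ccf29ed2e1104c4c7cd71afde570b195dd81e2bd1dad34e449ad77f05cae17488f896178183631514fe7fa8d179b63700dba90ceed7a3b2ce4fe53dd504cdc28e0a658f57ce1f519af5279e01a39f33be652ca078b4de1e4a57d67de2d03495ac43591de4d4b785ca14fe4de2d0a0df5763d2366038bf41014b06d84551bfd3f02f3b1c6fd40b7340fdaf2b85299e3e87367df27f224b79036b15ab0b7b90b45e57e31950d07a087abb042e969a76da49270932fec56cc30fda323bdc2e5c0716a483aebe0ba44a2f366dd455931a2f3a1d6efc62b95c282a9ba44249b6dc280aa689332cf4108935bed0abb784eb4d357bd6e872b85d88fd5166b7fa8dd0eb253c0909d31563e6bbcda2669443add9459966948677659c9fc0b06d626c6287f058a7f0151ba7cced5843b9caf721f1ac1838fbc0c0660775ba1384811fae5fd97739388827b90f99d325bcab461b7aa21fb54f99d940f6ac27c14cf72182cfccce9c733b135575ba128372ca93ee7205761c4c13f71a9960ce32057e385e067391fd5d871a0485d2789814fb43303a114b42bef4d3aaa681b692e3d820719c147f1a052375d01d12fecc1b4a7d4e73e91afc623c04eb74365499c2422e03e7d211e02a38040000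

def POS : ℕ := 0xd5b55d5266d4fb39958b11352723b2991d26282110cbafa75186dc7ec515292637444e624f30817509842cb8b9607e8d42008696b90dc6ec27f4507628c3d98830743d8137f36209d3ca9907f7c5d0140957991c41cb73e940b860213f9db4ca74f419ff30219ce96a9ce42715ef3ebaf9fb0be11131d524640a29303c986d60bef573c6cf5f93133a5fcb1961d962705f570f1a61e30dc1e2d37b5cfbf04ce0d642446178cc646100175f32ccf4fd93fa8664b7cd17f02a12db7e66cc0788b28d39a84165c7fa0f2fe05860e5ce6d1da969b7672f8e41ae5c4f21ee3e465eb8966c27d3330ae0eb144acc1d08548c0463e1f0a8a192f0fbe43bd7660b54d00b93bc96f473b991af4bd97d6e489012ee44b7a4fc5a5c61379ad86e25954089b3545ed155b3c2aac8697965e20d9f5075fb590b35137a5ca0cefaf004954164dfd63b5728232f11714177cc202916810ffdaa6c165ef408572bcf2753f12693ad8e57a76615e2d8e246b335f99bcd8096aa1139f6cf97ca19db2b3806886fbd7f27d3767b99a79b504d1e5b7f56683956edcbe813dc85e77b68e4677383a6d0d87699bd68f7adc3ae71f83e2a3e401f6b8a35c3f1fd28f9ed3e07b42c64eb6b62578ea19af9f28b530cbc25c1e0bc5afeb0f4111b2ea51cc8c2123c7ad222b40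363847878f60a479fd8a09290930f0ebe31c1883ad73abdc25fb52e033eb40b53e24d3ae332451ef3736844a7986b46aba74a9eb64a4bd5e4689b088f128c6b8d4a4b2c5327a3fc3a069307c5e354d9bf9abed6178095388653c340626af49a3539dab85da7f44f395a684ef43ea9c8374a5ac9962a3c11e175c357d0710708ac51fa58f00208b250e3ade6325c5e982d33483bdbbddd2ac1154e2d6f05837801d5e67ed18c115c974c222efea871162944f3d17609f2f60a015b244a00770f831f67f427a9adf4155ea48cfe51851b5ca9073073b9d1f03ef0ce15256464db5ef61b794e9b1a65c60575e40e0b5f00e1d6919cc8185f4feea59acd40bdb80888da997610818e6b4b6bb7be4aebc9198976c4cdacacd218058802bc42fad78d14f326e6b4cd9891b952e699389b38a40cd6d1aabc8a5a7d9fc59545836f15545aed9cb2f45180e82f6e9cd06169d927b679657ce346d9ccddab3a3cb1a2cfbf360da2e79bb4859d57ee3dd9e2db678ead8a70f7cecf86901fa8ef4e3f1f10cadf8fa1e8c535c2f1ac0f46a62363d7b0ae120f71ebf7428c4c7463eb371b86b54fc94e3548a152a6baea9ee93a2ac331d4bb18cae87088d9c0fbb81957c489ebee7aafa83cf68910dd6caa93057607222f15c04838ee337a934485de2b22e6f4029a18d119d4fae1d29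8f50a1835b4780cbf527f7e926526d908309f1c378664af71bb1b185e50e7c1d6c193ffaa0336f8925e81ed3b7ebb260ceacc870b3113493de6c924bd39e2cd7ab3237dd46bc85b73052a0e9dd0928e5d60471acf3069bf6e8d2558ee67967f633b6911ffd443790a214eb06a7238af127f83171edcae2501494aeeba52c4322c7e8a37fbe568a39fa85a3ddb0676716c0a344d5df8bdbe9a5d5fb0a76116e0cf7f94db77cb8764c6f79bc20690003625822bc26488c48d3e7130362ad7e05c14e9ed0d61477cdbf959ee9a03b8804394faa0b0fe71fdcd41bb295b223895e29a8b7776b0378230758a85bc346e1f31c1e706c0e82489c4d31365f91516247affeec81540b1fe942bb6398ab7876e312a5706e5e803e0a4c8da1551fef151feeee8addc2a9ba040db15952ff22c6ecdc15ffd377fe00000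

def TT : ℕ := 0x7eeca8f49dc0fe21d6b3f450beb94846f36cce4bbe7436019afc8ed32081313dea0e78e1e5ec658adaa96e614e2d015782c9bab0c1a9a31f094491171a574fb7

def SS : ℕ := 0xf23ed55e545a8e0afe9b9232e531d1e1136b2b37fecb1775b7bb31390ce910b39825935735a24a35346288bc4aa52f4aeac7f9b11dcef54242046cfaed835ec30ea0e2087e5fa901da5b22b71cfe3dbbe0f585c5814984cc8325d05be8a76374f8ab5c0319a49d7dc281f3c6994342a7a1cb4e3017c9fbce1e67bf0de06da009e47daabca8b51c15fd372465ca63a3c226d6566ffd962eeb6f76627219d22167304b26ae6b44946a68c51178954a5e95d58ff3623b9dea848408d9f5db06bd861d41c410fcbf5203b4b6456e39fc7b77c1eb0b8b02930999064ba0b7d14ec6e9f156b80633493afb8503e78d3286854f43969c602f93f79c3ccf7e1bc0db401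

def CC : ℕ := 0x6763c793b626f6f54df40f32c8207b4f73b8b9e94bc3ce51ebcc02e7bd8b4ae2c5e144edf5f1f1508efb6fe5f20e7c5c62311845d927320de82229d88c02e5f0805f49331a292553954f146489df436a253ee99f51a96791d7ffec6f52130defee62fd39dd949d3ed0604a3d6428efb57ef11c5b52bbb36c2b7df09

def pw (l : ℕ) : ℕ := (PW >>> (9 * l)) % 512

def lg (v : ℕ) : ℕ := (LG >>> (9 * v)) % 512

def pos (v : ℕ) : ℕ := (POS >>> (10 * v)) % 1024

def gv (v : ℕ) : Bool := (v != 0) && TT.testBit ((301 + 107 * lg v) % 511)

/-- parity of the first `2 ^ j` bits -/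
def par : ℕ → ℕ → Bool
  | 0, x => x.testBit 0
  | j + 1, x => par j (x ^^^ (x >>> (2 ^ j)))

theorem c_step : allB 512 (fun v => (allB 9 fun i => (step v).testBit i ==
    ((if i = 0 then false else v.testBit (i - 1)) ^^ (v.testBit 8 && (911).testBit i)))) = true := by
  decide +kernel

theorem c_pw0 : pw 0 = 1 := by decide +kernel

theorem c_pw : allB 510 (fun l => pw (l + 1) == step (pw l)) = true := by decide +kernel

theorem c_pw1 : step (pw 510) = 1 := by decide +kernel

theorem c_pwlt : allB 511 (fun l => decide (pw l < 512)) = true := by decide +kernel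

theorem c_lg : allB 512 (fun v => (v == 0) || (decide (lg v < 511) && pw (lg v) == v)) = true := by
  decide +kernel

theorem c_T : allB 511 (fun k => TT.testBit ((k + 9) % 511) ==
    (TT.testBit ((k + 8) % 511) ^^ TT.testBit ((k + 7) % 511) ^^ TT.testBit ((k + 3) % 511) ^^
      TT.testBit ((k + 2) % 511) ^^ TT.testBit ((k + 1) % 511) ^^ TT.testBit k)) = true := by
  decide +kernel

theorem c_per : allB 1023 (fun j => SS.testBit (j + 1023) == SS.testBit j) = true := by
  decide +kernel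

theorem c_rec : allB 1023 (fun k => SS.testBit (k + 10) ==
    (SS.testBit k ^^ gv ((SS >>> (k + 1)) % 512))) = true := by
  decide +kernel

theorem c_pos : allB 1023 (fun k => pos ((SS >>> k) % 1024) == k) = true := by
  decide +kernel

theorem c_win : allB 1024 (fun v => (v == 0) ||
    (decide (pos v < 1023) && (SS >>> pos v) % 1024 == v)) = true := by
  decide +kernel

theorem c_C : CC < 2 ^ 987 := by decide +kernel

theorem c_lin : allB 1023 (fun k => SS.testBit (k + 987) == par 10 (CC &&& (SS >>> k))) = true := by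
  decide +kernel

/-! ### the field -/

section field

variable {K : Type} [Field K] [CharP K 2]

/-- the element with coordinate vector `v` -/
noncomputable def phi (α : K) (v : ℕ) : K := ∑ i ∈ range 9, if v.testBit i then α ^ i else 0

theorem phi_xor (α : K) (v w : ℕ) : phi α (v ^^^ w) = phi α v + phi α w := by
  unfold phi
  rw [← sum_add_distrib]
  refine sum_congr rfl fun i _ => ?_
  rw [Nat.testBit_xor]
  have h2 : α ^ i + α ^ i = 0 := CharTwo.add_self_eq_zero _
  cases v.testBit i <;> cases w.testBit i <;> simp [h2]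

theorem phi_one (α : K) : phi α 1 = 1 := by
  unfold phi
  simp [sum_range_succ, Nat.testBit]

theorem bool_xor (a b : Bool) : (if (a ^^ b) then (1 : K) else 0) =
    (if a then 1 else 0) + (if b then 1 else 0) := by
  have h2 : (1 : K) + 1 = 0 := CharTwo.add_self_eq_zero _
  cases a <;> cases b <;> simp [h2]

theorem bool_and (a b : Bool) : (if (a && b) then (1 : K) else 0) =
    (if a then 1 else 0) * (if b then 1 else 0) := by
  cases a <;> cases b <;> simp

theorem phi_eq (α : K) (v : ℕ) : phi α v = ∑ i ∈ range 9, (if v.testBit i then 1 else 0) * α ^ i := by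
  unfold phi
  refine sum_congr rfl fun i _ => ?_
  cases v.testBit i <;> simp

theorem phi_step {α : K} (hα : α ^ 9 = α ^ 8 + α ^ 7 + α ^ 3 + α ^ 2 + α + 1) {v : ℕ}
    (hv : v < 512) : phi α (step v) = α * phi α v := by
  have hb : ∀ i, i < 9 → (if (step v).testBit i then (1 : K) else 0) =
      (if (if i = 0 then false else v.testBit (i - 1)) then 1 else 0) +
        (if v.testBit 8 then 1 else 0) * (if (911).testBit i then 1 else 0) := by
    intro i hi
    have h1 := allB_spec (allB_spec c_step v hv) i hi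
    rw [beq_iff_eq] at h1
    rw [h1, bool_xor, bool_and]
  obtain ⟨B, hB⟩ : ∃ B : ℕ → K, ∀ i, (if v.testBit i then (1 : K) else 0) = B i := ⟨_, fun _ => rfl⟩
  have g0 : (if (step v).testBit 0 then (1 : K) else 0) = B 8 := by
    rw [hb 0 (by norm_num), ← hB, show Nat.testBit 911 0 = true by decide]
    simp
  have g1 : (if (step v).testBit 1 then (1 : K) else 0) = B 0 + B 8 := by
    rw [hb 1 (by norm_num), ← hB, ← hB, show Nat.testBit 911 1 = true by decide]
    simp
  have g2 : (if (step v).testBit 2 then (1 : K) else 0) = B 1 + B 8 := by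
    rw [hb 2 (by norm_num), ← hB, ← hB, show Nat.testBit 911 2 = true by decide]
    simp
  have g3 : (if (step v).testBit 3 then (1 : K) else 0) = B 2 + B 8 := by
    rw [hb 3 (by norm_num), ← hB, ← hB, show Nat.testBit 911 3 = true by decide]
    simp
  have g4 : (if (step v).testBit 4 then (1 : K) else 0) = B 3 := by
    rw [hb 4 (by norm_num), ← hB, show Nat.testBit 911 4 = false by decide]
    simp
  have g5 : (if (step v).testBit 5 then (1 : K) else 0) = B 4 := by
    rw [hb 5 (by norm_num), ← hB, show Nat.testBit 911 5 = false by decide]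
    simp
  have g6 : (if (step v).testBit 6 then (1 : K) else 0) = B 5 := by
    rw [hb 6 (by norm_num), ← hB, show Nat.testBit 911 6 = false by decide]
    simp
  have g7 : (if (step v).testBit 7 then (1 : K) else 0) = B 6 + B 8 := by
    rw [hb 7 (by norm_num), ← hB, ← hB, show Nat.testBit 911 7 = true by decide]
    simp
  have g8 : (if (step v).testBit 8 then (1 : K) else 0) = B 7 + B 8 := by
    rw [hb 8 (by norm_num), ← hB, ← hB, show Nat.testBit 911 8 = true by decide]
    simp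
  rw [phi_eq, phi_eq]
  simp only [sum_range_succ, range_zero, sum_empty, g0, g1, g2, g3, g4, g5, g6, g7, g8]
  simp only [hB]
  linear_combination (-B 8) * hα

theorem pow_eq_phi {α : K} (hα : α ^ 9 = α ^ 8 + α ^ 7 + α ^ 3 + α ^ 2 + α + 1) :
    ∀ l, l < 511 → α ^ l = phi α (pw l) := by
  intro l
  induction l with
  | zero => intro _; rw [c_pw0, phi_one, pow_zero]
  | succ l ih =>
    intro hl
    have h1 := allB_spec c_pw l (by omega)
    rw [beq_iff_eq] at h1
    have h2 := allB_spec c_pwlt l (by omega)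
    rw [decide_eq_true_eq] at h2
    rw [h1, phi_step hα h2, ← ih (by omega), pow_succ']

theorem pow_511 {α : K} (hα : α ^ 9 = α ^ 8 + α ^ 7 + α ^ 3 + α ^ 2 + α + 1) : α ^ 511 = 1 := by
  have h2 := allB_spec c_pwlt 510 (by omega)
  rw [decide_eq_true_eq] at h2
  have h1 := phi_step hα h2
  rw [c_pw1, phi_one, ← pow_eq_phi hα 510 (by omega), ← pow_succ'] at h1
  exact h1.symm

theorem α_ne_zero {α : K} (hα : α ^ 9 = α ^ 8 + α ^ 7 + α ^ 3 + α ^ 2 + α + 1) : α ≠ 0 := by
  rintro rfl
  norm_num at hα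

theorem phi_eq_pow {α : K} (hα : α ^ 9 = α ^ 8 + α ^ 7 + α ^ 3 + α ^ 2 + α + 1) {v : ℕ}
    (hv : v < 512) (h0 : v ≠ 0) : phi α v = α ^ lg v := by
  have h1 := allB_spec c_lg v hv
  rw [Bool.or_eq_true, Bool.and_eq_true, beq_iff_eq, beq_iff_eq, decide_eq_true_eq] at h1
  rcases h1 with h1 | ⟨h1, h2⟩
  · exact absurd h1 h0
  · rw [pow_eq_phi hα _ h1, h2]

theorem phi_ne_zero {α : K} (hα : α ^ 9 = α ^ 8 + α ^ 7 + α ^ 3 + α ^ 2 + α + 1) {v : ℕ}
    (hv : v < 512) (h0 : v ≠ 0) : phi α v ≠ 0 := by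
  rw [phi_eq_pow hα hv h0]
  exact pow_ne_zero _ (α_ne_zero hα)

theorem pow_ne_one {α : K} (hα : α ^ 9 = α ^ 8 + α ^ 7 + α ^ 3 + α ^ 2 + α + 1) {l : ℕ}
    (hl : l < 511) (h : pw l ≠ 1) : α ^ l ≠ 1 := by
  intro h1
  have h2 := allB_spec c_pwlt l hl
  rw [decide_eq_true_eq] at h2
  rw [pow_eq_phi hα l hl, ← phi_one α] at h1
  have h3 : phi α (pw l ^^^ 1) = 0 := by
    rw [phi_xor, h1]
    exact CharTwo.add_self_eq_zero _
  refine phi_ne_zero hα (Nat.xor_lt_two_pow (n := 9) h2 (by norm_num)) ?_ h3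
  intro h4
  apply h
  have h5 : pw l ^^^ 1 ^^^ 1 = 0 ^^^ 1 := by rw [h4]
  simpa [Nat.xor_assoc] using h5

theorem order {α : K} (hα : α ^ 9 = α ^ 8 + α ^ 7 + α ^ 3 + α ^ 2 + α + 1) :
    orderOf α = 511 := by
  apply orderOf_eq_of_pow_and_pow_div_prime (by norm_num) (pow_511 hα)
  intro p hp hd
  have h1 : (511 : ℕ) = 7 * 73 := by norm_num
  rw [h1] at hd
  rcases (hp.dvd_mul).1 hd with h2 | h2
  · have h3 : p = 7 := (Nat.prime_dvd_prime_iff_eq hp (by norm_num)).1 h2
    subst h3
    exact pow_ne_one hα (by norm_num) (by decide +kernel)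
  · have h3 : p = 73 := (Nat.prime_dvd_prime_iff_eq hp (by norm_num)).1 h2
    subst h3
    exact pow_ne_one hα (by norm_num) (by decide +kernel)

end field

/-- the field with `2 ^ 9` elements contains the root -/
theorem exists_root : ∃ α : GaloisField 2 9, α ^ 9 = α ^ 8 + α ^ 7 + α ^ 3 + α ^ 2 + α + 1 := by
  classical
  set K := GaloisField 2 9 with hK
  have : Fintype K := Fintype.ofFinite K
  have : CharP K 2 := inferInstance
  set Ω := AlgebraicClosure K
  have : CharP Ω 2 := charP_of_injective_algebraMap (algebraMap K Ω).injective 2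
  have hcard : Fintype.card K = 2 ^ 9 := by
    rw [← Nat.card_eq_fintype_card]
    exact GaloisField.card 2 9 (by norm_num)
  obtain ⟨β, hβ⟩ : ∃ β : Ω, β ^ 9 = β ^ 8 + β ^ 7 + β ^ 3 + β ^ 2 + β + 1 := by
    have hdeg : ((Polynomial.X ^ 9 - (Polynomial.X ^ 8 + Polynomial.X ^ 7 + Polynomial.X ^ 3 +
        Polynomial.X ^ 2 + Polynomial.X + 1) : Polynomial Ω)).natDegree = 9 := by
      compute_degree!
    obtain ⟨β, hβ⟩ := IsAlgClosed.exists_root (Polynomial.X ^ 9 - (Polynomial.X ^ 8 +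
      Polynomial.X ^ 7 + Polynomial.X ^ 3 + Polynomial.X ^ 2 + Polynomial.X + 1) : Polynomial Ω)
      (by
        intro h
        have := Polynomial.natDegree_eq_of_degree_eq_some (n := 0) h
        omega)
    refine ⟨β, ?_⟩
    simp [Polynomial.IsRoot] at hβ
    linear_combination hβ
  have hβ1 : β ^ 512 = β := by
    have := pow_511 hβ
    rw [show (512 : ℕ) = 511 + 1 from rfl, pow_succ, this, one_mul]
  have hsp : (Polynomial.X ^ Fintype.card K - Polynomial.X : Polynomial K).Splits := by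
    rw [Polynomial.splits_iff_card_roots, FiniteField.roots_X_pow_card_sub_X K,
      ← Finset.card_def, Finset.card_univ,
      FiniteField.X_pow_card_sub_X_natDegree_eq K Fintype.one_lt_card]
  obtain ⟨α, hα⟩ := hsp.mem_range_of_isRoot (FiniteField.X_pow_card_sub_X_ne_zero K
    Fintype.one_lt_card) (i := algebraMap K Ω) (x := β) (by
      rw [hcard]
      simp [Polynomial.IsRoot, hβ1])
  refine ⟨α, (algebraMap K Ω).injective ?_⟩
  rw [map_pow, hα, hβ]
  simp [hα]

/-! ### the trace -/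

/-- bits as elements of the field with two elements -/
def z (b : Bool) : ZMod 2 := if b then 1 else 0

theorem z_xor (a b : Bool) : z (a ^^ b) = z a + z b := by
  cases a <;> cases b <;> decide

theorem z_and (a b : Bool) : z (a && b) = z a * z b := by
  cases a <;> cases b <;> decide

theorem z_par : ∀ (j x : ℕ), z (par j x) = ∑ i ∈ range (2 ^ j), z (x.testBit i) := by
  intro j
  induction j with
  | zero => intro x; simp [par]
  | succ j ih =>
    intro x
    rw [par, ih, pow_succ, mul_two, sum_range_add, ← sum_add_distrib]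
    refine sum_congr rfl fun i _ => ?_
    rw [Nat.testBit_xor, Nat.testBit_shiftRight, z_xor]

section trace

variable {K : Type} [Field K] [Fintype K] [Algebra (ZMod 2) K]

/-- the trace -/
noncomputable def tr (x : K) : ZMod 2 := Algebra.trace (ZMod 2) K x

theorem tr_add (x y : K) : tr (x + y) = tr x + tr y := map_add _ _ _

theorem tr_sq (x : K) : tr (x ^ 2) = tr x := by
  have h := Algebra.trace_eq_of_algEquiv (FiniteField.frobeniusAlgEquivOfAlgebraic (ZMod 2) K) x
  rw [FiniteField.coe_frobeniusAlgEquivOfAlgebraic, ZMod.card] at h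
  exact h

theorem tr_one (hcard : Fintype.card K = 2 ^ 9) : tr (1 : K) = 1 := by
  have h := Algebra.trace_algebraMap (R := ZMod 2) (S := K) 1
  have h2 : Module.finrank (ZMod 2) K = 9 := by
    have h3 := Module.card_eq_pow_finrank (K := ZMod 2) (V := K)
    rw [ZMod.card, hcard] at h3
    exact (Nat.pow_right_injective le_rfl h3).symm
  rw [map_one, h2] at h
  unfold tr
  rw [h]
  decide

theorem tr_rec {α : K} (hα : α ^ 9 = α ^ 8 + α ^ 7 + α ^ 3 + α ^ 2 + α + 1) (k : ℕ) :
    tr (α ^ (k + 9)) = tr (α ^ (k + 8)) + tr (α ^ (k + 7)) + tr (α ^ (k + 3)) +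
      tr (α ^ (k + 2)) + tr (α ^ (k + 1)) + tr (α ^ k) := by
  rw [← tr_add, ← tr_add, ← tr_add, ← tr_add, ← tr_add]
  congr 1
  rw [pow_add, hα]
  ring

theorem tr_init {α : K} (hα : α ^ 9 = α ^ 8 + α ^ 7 + α ^ 3 + α ^ 2 + α + 1)
    (hcard : Fintype.card K = 2 ^ 9) : ∀ k, k < 9 → tr (α ^ k) = z (TT.testBit k) := by
  have e0 : tr (α ^ 0) = 1 := by rw [pow_zero, tr_one hcard]
  have sq : ∀ k, tr (α ^ (2 * k)) = tr (α ^ k) := by
    intro k
    rw [mul_comm, pow_mul, tr_sq]
  have e2 : tr (α ^ 2) = tr (α ^ 1) := sq 1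
  have e4 : tr (α ^ 4) = tr (α ^ 2) := sq 2
  have e6 : tr (α ^ 6) = tr (α ^ 3) := sq 3
  have e8 : tr (α ^ 8) = tr (α ^ 4) := sq 4
  have e10 : tr (α ^ 10) = tr (α ^ 5) := sq 5
  have e12 : tr (α ^ 12) = tr (α ^ 6) := sq 6
  have e14 : tr (α ^ 14) = tr (α ^ 7) := sq 7
  have e16 : tr (α ^ 16) = tr (α ^ 8) := sq 8
  have e18 : tr (α ^ 18) = tr (α ^ 9) := sq 9
  have r0 := tr_rec hα 0
  have r1 := tr_rec hα 1
  have r2 := tr_rec hα 2
  have r3 := tr_rec hα 3
  have r4 := tr_rec hα 4
  have r5 := tr_rec hα 5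
  have r6 := tr_rec hα 6
  have r7 := tr_rec hα 7
  have r8 := tr_rec hα 8
  have r9 := tr_rec hα 9
  norm_num only at r0 r1 r2 r3 r4 r5 r6 r7 r8 r9
  simp only [e18, e16, e14, e12, e10, e8, e6, e4, e2, e0] at r0 r1 r2 r3 r4 r5 r6 r7 r8 r9
  have key : tr (α ^ 1) = 1 ∧ tr (α ^ 3) = 0 ∧ tr (α ^ 5) = 1 ∧ tr (α ^ 7) = 1 := by
    clear e0 e2 e4 e6 e8 e10 e12 e14 e16 e18 sq hcard
    generalize tr (α ^ 1) = a at *
    generalize tr (α ^ 3) = b at *
    generalize tr (α ^ 5) = c at *
    generalize tr (α ^ 7) = d at *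
    generalize tr (α ^ 9) = t9 at *
    generalize tr (α ^ 11) = t11 at *
    generalize tr (α ^ 13) = t13 at *
    generalize tr (α ^ 15) = t15 at *
    generalize tr (α ^ 17) = t17 at *
    subst r0
    subst r2
    subst r4
    subst r6
    subst r8
    revert r1 r3 r5 r7 r9
    revert a b c d
    decide
  obtain ⟨k1, k3, k5, k7⟩ := key
  intro k hk
  interval_cases k
  · rw [e0]; decide +kernel
  · rw [k1]; decide +kernel
  · rw [e2, k1]; decide +kernel
  · rw [k3]; decide +kernel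
  · rw [e4, e2, k1]; decide +kernel
  · rw [k5]; decide +kernel
  · rw [e6, k3]; decide +kernel
  · rw [k7]; decide +kernel
  · rw [e8, e4, e2, k1]; decide +kernel

theorem tr_table {α : K} (hα : α ^ 9 = α ^ 8 + α ^ 7 + α ^ 3 + α ^ 2 + α + 1)
    (hcard : Fintype.card K = 2 ^ 9) : ∀ k, k < 511 → tr (α ^ k) = z (TT.testBit k) := by
  intro k
  induction k using Nat.strong_induction_on with
  | _ k ih =>
  intro hk
  by_cases hk9 : k < 9
  · exact tr_init hα hcard k hk9
  · obtain ⟨j, rfl⟩ : ∃ j, k = j + 9 := ⟨k - 9, by omega⟩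
    have h := allB_spec c_T j (by omega)
    rw [beq_iff_eq] at h
    rw [Nat.mod_eq_of_lt (by omega : j + 9 < 511), Nat.mod_eq_of_lt (by omega : j + 8 < 511),
      Nat.mod_eq_of_lt (by omega : j + 7 < 511), Nat.mod_eq_of_lt (by omega : j + 3 < 511),
      Nat.mod_eq_of_lt (by omega : j + 2 < 511), Nat.mod_eq_of_lt (by omega : j + 1 < 511)] at h
    rw [h, tr_rec hα, z_xor, z_xor, z_xor, z_xor, z_xor, ih (j + 8) (by omega) (by omega),
      ih (j + 7) (by omega) (by omega), ih (j + 3) (by omega) (by omega),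
      ih (j + 2) (by omega) (by omega), ih (j + 1) (by omega) (by omega),
      ih j (by omega) (by omega)]

/-- the function `g` -/
noncomputable def gg (α : K) (x : K) : ZMod 2 := tr (α ^ 301 * x ^ 107)

theorem charP_two : CharP K 2 := charP_of_injective_algebraMap (algebraMap (ZMod 2) K).injective 2

theorem gg_phi {α : K} (hα : α ^ 9 = α ^ 8 + α ^ 7 + α ^ 3 + α ^ 2 + α + 1)
    (hcard : Fintype.card K = 2 ^ 9) {v : ℕ} (hv : v < 512) : gg α (phi α v) = z (gv v) := by
  have : CharP K 2 := charP_two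
  unfold gg gv
  by_cases h0 : v = 0
  · subst h0
    have : phi α 0 = 0 := by
      unfold phi
      simp
    rw [this]
    simp [tr, z]
  · rw [phi_eq_pow hα hv h0, ← pow_mul, ← pow_add]
    have h1 : α ^ (301 + lg v * 107) = α ^ ((301 + 107 * lg v) % 511) := by
      rw [← order hα, pow_mod_orderOf, mul_comm]
    rw [h1, tr_table hα hcard _ (Nat.mod_lt _ (by norm_num))]
    have h2 : (v != 0) = true := by
      rw [bne_iff_ne]
      exact h0
    rw [h2, Bool.true_and]

theorem sum_tr (hcard : Fintype.card K = 2 ^ 9) : ∑ y : K, (-1 : ℤ) ^ (tr y).val = 0 := by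
  have h : ∑ y : K, (-1 : ℤ) ^ (tr y).val = ∑ y : K, (-1 : ℤ) ^ (tr (y + 1)).val :=
    (Fintype.sum_equiv (Equiv.addRight (1 : K)) _ _ fun y => rfl).symm
  have h2 : ∀ y : K, (-1 : ℤ) ^ (tr (y + 1)).val = - (-1 : ℤ) ^ (tr y).val := by
    intro y
    rw [tr_add, tr_one hcard]
    generalize tr y = a
    revert a
    decide
  rw [sum_congr rfl fun y _ => h2 y, sum_neg_distrib] at h
  linarith

theorem pow107_inj {x y : K} (hcard : Fintype.card K = 2 ^ 9) (h : x ^ 107 = y ^ 107) : x = y := by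
  have key : ∀ w : K, w ^ 107 = 1 → w = 1 := by
    intro w hw
    have hw0 : w ≠ 0 := by
      rintro rfl
      norm_num at hw
    have h1 : w ^ 511 = 1 := by
      have := FiniteField.pow_card_sub_one_eq_one w hw0
      rwa [hcard] at this
    have h2 : orderOf w ∣ 107 := orderOf_dvd_of_pow_eq_one hw
    have h3 : orderOf w ∣ 511 := orderOf_dvd_of_pow_eq_one h1
    have h4 : orderOf w ∣ 1 := by
      have : Nat.gcd 107 511 = 1 := by norm_num
      rw [← this]
      exact Nat.dvd_gcd h2 h3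
    exact orderOf_eq_one_iff.1 (Nat.dvd_one.1 h4)
  by_cases hy : y = 0
  · subst hy
    rw [zero_pow (by norm_num)] at h
    exact pow_eq_zero_iff (by norm_num) |>.1 h
  · have h1 : (x / y) ^ 107 = 1 := by
      rw [div_pow, h, div_self (pow_ne_zero _ hy)]
    have h2 := key _ h1
    rwa [div_eq_one_iff_eq hy] at h2

theorem gg_orthogonal {α : K} (hα : α ^ 9 = α ^ 8 + α ^ 7 + α ^ 3 + α ^ 2 + α + 1)
    (hcard : Fintype.card K = 2 ^ 9) : Orthogonal (gg α) := by
  have : CharP K 2 := charP_two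
  intro l hl
  set γ : K := α ^ 301 * (l ^ 107 + 1) with hγ
  have hγ0 : γ ≠ 0 := by
    refine mul_ne_zero (pow_ne_zero _ (α_ne_zero hα)) fun h => hl ?_
    apply pow107_inj hcard
    rw [one_pow]
    exact CharTwo.add_eq_zero.1 h
  have h1 : ∀ x : K, gg α (l * x) + gg α x = tr (γ * x ^ 107) := by
    intro x
    unfold gg
    rw [← tr_add]
    congr 1
    rw [hγ]
    ring
  simp only [h1]
  have hinj : Function.Injective fun x : K => γ * x ^ 107 := by
    intro x y hxy
    exact pow107_inj hcard (mul_left_cancel₀ hγ0 hxy)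
  have hbij : Function.Bijective fun x : K => γ * x ^ 107 := Finite.injective_iff_bijective.1 hinj
  rw [← sum_tr (K := K) hcard]
  exact Fintype.sum_bijective _ hbij _ _ fun x => rfl

theorem gg_not_affine {α : K} (hα : α ^ 9 = α ^ 8 + α ^ 7 + α ^ 3 + α ^ 2 + α + 1)
    (hcard : Fintype.card K = 2 ^ 9) : ¬ IsAffine (gg α) := by
  have : CharP K 2 := charP_two
  rintro ⟨φ, b, h⟩
  have h0 := h (phi α 0)
  have h2 := h (phi α 2)
  have h4 := h (phi α 4)
  have h6 := h (phi α (2 ^^^ 4))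
  rw [gg_phi hα hcard (by decide)] at h0 h2 h4 h6
  rw [phi_xor, map_add] at h6
  have hz : phi α 0 = 0 := by
    unfold phi
    simp
  rw [hz, map_zero] at h0
  have g0 : z (gv 0) + z (gv 2) + z (gv 4) + z (gv (2 ^^^ 4)) = 1 := by decide +kernel
  rw [h0, h2, h4, h6] at g0
  have fin : ∀ b u v : ZMod 2, 0 + b + (u + b) + (v + b) + (u + v + b) = 1 → False := by decide
  exact fin _ _ _ g0

end trace

/-! ### the sequence -/

/-- the sequence -/
def ss (k : ℕ) : ZMod 2 := z (SS.testBit (k % 1023))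

theorem ss_shift (k i : ℕ) (hi : i < 1023) : ss (k + i) = z (SS.testBit (k % 1023 + i)) := by
  unfold ss
  have h0 : k % 1023 < 1023 := Nat.mod_lt _ (by norm_num)
  have h1 : (k + i) % 1023 = (k % 1023 + i) % 1023 := by
    rw [Nat.add_mod, Nat.mod_eq_of_lt hi]
  rw [h1]
  by_cases h2 : k % 1023 + i < 1023
  · rw [Nat.mod_eq_of_lt h2]
  · have h3 : (k % 1023 + i) % 1023 = k % 1023 + i - 1023 := by
      rw [Nat.mod_eq_sub_mod (by omega), Nat.mod_eq_of_lt (by omega)]
    have h4 := allB_spec c_per (k % 1023 + i - 1023) (by omega)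
    rw [beq_iff_eq] at h4
    rw [h3, ← h4]
    congr 2
    omega

theorem window_bit (k w i : ℕ) (hi : i < w) :
    ((SS >>> k) % 2 ^ w).testBit i = SS.testBit (k + i) := by
  rw [Nat.testBit_mod_two_pow, Nat.testBit_shiftRight]
  simp [hi]

theorem ss_rec {K : Type} [Field K] [Fintype K] [Algebra (ZMod 2) K] {α : K}
    (hα : α ^ 9 = α ^ 8 + α ^ 7 + α ^ 3 + α ^ 2 + α + 1) (hcard : Fintype.card K = 2 ^ 9) (k : ℕ) :
    ss (k + 10) = 0 + ss k +
      gg α (∑ i : Fin 9, ((ss (k + ((i : ℕ) + 1))).val : K) * α ^ (i : ℕ)) := by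
  set k₀ := k % 1023 with hk₀
  have hk : k₀ < 1023 := Nat.mod_lt _ (by norm_num)
  have h1 : ∑ i : Fin 9, ((ss (k + ((i : ℕ) + 1))).val : K) * α ^ (i : ℕ) =
      phi α ((SS >>> (k₀ + 1)) % 2 ^ 9) := by
    unfold phi
    rw [Finset.sum_range]
    refine Finset.sum_congr rfl fun i _ => ?_
    rw [window_bit _ _ _ i.2, ss_shift k _ (by have := i.2; omega), ← hk₀,
      show k₀ + ((i : ℕ) + 1) = k₀ + 1 + (i : ℕ) by ring]
    cases SS.testBit (k₀ + 1 + (i : ℕ))
    · simp [z]
    · have : (z true).val = 1 := by decide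
      simp [this]
  have h3 : gg α (phi α ((SS >>> (k₀ + 1)) % 2 ^ 9)) = z (gv ((SS >>> (k₀ + 1)) % 2 ^ 9)) :=
    gg_phi hα hcard (Nat.mod_lt (SS >>> (k₀ + 1)) (by norm_num : 2 ^ 9 > 0))
  rw [h1, h3, ss_shift k 10 (by norm_num), ← hk₀]
  have h2 := allB_spec c_rec k₀ hk
  rw [beq_iff_eq] at h2
  rw [h2, z_xor, zero_add]
  rfl

theorem ss_period (k : ℕ) : ss (k + (2 ^ 10 - 1)) = ss k := by
  unfold ss
  congr 2
  norm_num

theorem ss_span : SpanSeq 10 ss := by
  refine ⟨ss_period, fun w hw => ?_⟩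
  set v : ℕ := Nat.ofBits (fun i => decide (w i = 1)) with hv
  have hbit : ∀ i : Fin 10, z (v.testBit i) = w i := by
    intro i
    rw [hv, Nat.testBit_ofBits_lt _ _ i.2]
    have : ∀ x : ZMod 2, z (decide (x = 1)) = x := by decide
    exact this _
  have hv1 : v < 1024 := Nat.ofBits_lt_two_pow _
  have hv0 : v ≠ 0 := by
    intro h
    apply hw
    funext i
    rw [← hbit i, h]
    simp [z]
  have hpos := allB_spec c_win v hv1
  rw [Bool.or_eq_true, Bool.and_eq_true, beq_iff_eq, beq_iff_eq, decide_eq_true_eq] at hpos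
  obtain ⟨h1, h2⟩ := hpos.resolve_left hv0
  refine ⟨pos v, ⟨by norm_num; exact h1, fun i => ?_⟩, ?_⟩
  · rw [ss_shift _ _ (by have := i.2; omega), Nat.mod_eq_of_lt h1,
      ← window_bit (pos v) 10 i i.2, show (2 : ℕ) ^ 10 = 1024 by norm_num, h2]
    exact hbit i
  · rintro k ⟨hk, hki⟩
    have hk' : k < 1023 := by norm_num at hk; exact hk
    have h3 : (SS >>> k) % 1024 = v := by
      apply Nat.eq_of_testBit_eq
      intro i
      by_cases hi : i < 10
      · have h4 := hki ⟨i, hi⟩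
        rw [ss_shift _ _ (by show i < 1023; omega), Nat.mod_eq_of_lt hk', ← hbit ⟨i, hi⟩,
          ← window_bit k 10 i hi] at h4
        rw [show (1024 : ℕ) = 2 ^ 10 by norm_num]
        simp only at h4
        revert h4
        cases ((SS >>> k) % 2 ^ 10).testBit i <;> cases v.testBit i <;> simp [z]
      · rw [Nat.testBit_lt_two_pow, Nat.testBit_lt_two_pow]
        · exact lt_of_lt_of_le hv1 (by
            rw [show (1024 : ℕ) = 2 ^ 10 by norm_num]
            exact Nat.pow_le_pow_right (by norm_num) (by omega))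
        · exact lt_of_lt_of_le (Nat.mod_lt _ (by norm_num)) (by
            rw [show (1024 : ℕ) = 2 ^ 10 by norm_num]
            exact Nat.pow_le_pow_right (by norm_num) (by omega))
    have h5 := allB_spec c_pos k hk'
    rw [beq_iff_eq] at h5
    rw [← h5, h3]

theorem ss_lfsr : LFSR 987 ss := by
  refine ⟨fun i => z (CC.testBit i), fun k => ?_⟩
  set k₀ := k % 1023 with hk₀
  have hk : k₀ < 1023 := Nat.mod_lt _ (by norm_num)
  have h := allB_spec c_lin k₀ hk
  rw [beq_iff_eq] at h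
  rw [ss_shift k 987 (by norm_num), ← hk₀, h, z_par]
  rw [Fin.sum_univ_eq_sum_range (fun i => z (CC.testBit i) * ss (k + i)) 987]
  symm
  apply Finset.sum_subset_zero_on_sdiff
  · intro i hi
    rw [Finset.mem_range] at hi ⊢
    exact lt_of_lt_of_le hi (by norm_num)
  · intro i hi
    rw [Finset.mem_sdiff, Finset.mem_range, Finset.mem_range, not_lt] at hi
    have h1 : CC.testBit i = false :=
      Nat.testBit_lt_two_pow (lt_of_lt_of_le c_C (Nat.pow_le_pow_right Nat.two_pos hi.2))
    rw [Nat.testBit_and, h1]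
    rfl
  · intro i hi
    rw [Finset.mem_range] at hi
    rw [Nat.testBit_and, Nat.testBit_shiftRight, z_and, ss_shift k i (by omega)]

theorem ss_linearSpan : linearSpan ss ≤ 987 := Nat.sInf_le ss_lfsr

/-- **A counterexample.** There are a span `10` sequence generated by a non-affine orthogonal
function in `9` variables with linear span less than `2 ^ 10 - 2 - 3 * 10`. -/
theorem result : ∃ (m n : ℕ) (K : Type) (_ : Field K) (_ : Fintype K) (α : K) (g : K → ZMod 2)
    (c : ZMod 2) (r : Fin m → ℕ) (s : ℕ → ZMod 2),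
    Setting m n K α g c r s ∧ SpanSeq n s ∧ linearSpan s < 2 ^ n - 2 - 3 * n := by
  obtain ⟨α, hα⟩ := exists_root
  let _ : Fintype (GaloisField 2 9) := Fintype.ofFinite _
  have hcard : Fintype.card (GaloisField 2 9) = 2 ^ 9 := by
    rw [← Nat.card_eq_fintype_card]
    exact GaloisField.card 2 9 (by norm_num)
  refine ⟨9, 10, GaloisField 2 9, inferInstance, inferInstance, α, gg α, 0,
    fun i => (i : ℕ) + 1, ss, ⟨by norm_num, by norm_num, hcard, ?_, gg_orthogonal hα hcard,
      gg_not_affine hα hcard, ?_, ?_, ?_, ss_rec hα hcard⟩, ss_span, ?_⟩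
  · rw [order hα]
    norm_num
  · intro i j hij
    have : (i : ℕ) < j := hij
    show (i : ℕ) + 1 < j + 1
    omega
  · intro i
    show 0 < (i : ℕ) + 1
    omega
  · intro i
    show (i : ℕ) + 1 < 10
    have := i.2
    omega
  · have h := ss_linearSpan
    norm_num
    omega

end Pool.Agent.Results.MP_593d43_lc.SpanCounterexample
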